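import Mathlib

set_option autoImplicit false

open Finset
open scoped Classical

namespace Pool.Agent.H692.Coup

variable {V : Type}

/-- `0/1` adjacency: `1` if there is an arc from `v` to `w`. -/
noncomputable def M (G : Digraph V) (v w : V) : ℝ := if G.Adj v w then 1 else 0

/-- `w ≠ v`, `w` is not an out-neighbour of `v`, and there is no 2-step path from `v` to `w`
(distance from `v` to `w` at least three, or infinite). -/
def Far (G : Digraph V) (v w : V) : Prop :=
  w ≠ v ∧ ¬ G.Adj v w ∧ ¬ ∃ u, G.Adj v u ∧ G.Adj u w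

/-- `q` is a doubly stochastic matrix supported on the loops and the arcs of `G`. -/
structure DSOn [Fintype V] (G : Digraph V) (q : V → V → ℝ) : Prop where
  nonneg : ∀ v w, 0 ≤ q v w
  supp : ∀ v w, q v w ≠ 0 → v = w ∨ G.Adj v w
  row : ∀ v, ∑ w, q v w = 1
  col : ∀ w, ∑ v, q v w = 1

/-- total weight `p y w` of the in-neighbours `y` of `v` -/
noncomputable def inW [Fintype V] (G : Digraph V) (p : V → V → ℝ) (v w : V) : ℝ :=
  ∑ y, M G y v * p y w

/-- total weight `q v x` of the out-neighbours `x` of `w` -/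
noncomputable def outW [Fintype V] (G : Digraph V) (q : V → V → ℝ) (v w : V) : ℝ :=
  ∑ x, q v x * M G w x

/-- identity matrix -/
noncomputable def D (v w : V) : ℝ := if v = w then 1 else 0

/-- `a1` -/
noncomputable def a1 [Fintype V] (G : Digraph V) (p : V → V → ℝ) (v w : V) : ℝ :=
  ∑ y, (D v y + M G v y) * p y w

/-- `a2` -/
noncomputable def a2 [Fintype V] (G : Digraph V) (q : V → V → ℝ) (v w : V) : ℝ :=
  ∑ x, q v x * (D x w + M G x w)

/-- near indicator -/
noncomputable def nr (G : Digraph V) (v w : V) : ℝ := if Far G v w then 0 else 1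

lemma M_nonneg (G : Digraph V) (v w : V) : 0 ≤ M G v w := by
  unfold M; split_ifs <;> norm_num

lemma D_nonneg (v w : V) : 0 ≤ (D v w : ℝ) := by
  unfold D; split_ifs <;> norm_num

lemma DMM_le (G : Digraph V) (hl : ∀ v, ¬ G.Adj v v) (ha : ∀ u v, G.Adj u v → ¬ G.Adj v u)
    (v y : V) : D v y + M G v y + M G y v ≤ 1 := by
  unfold D M
  by_cases h : v = y
  · subst h; simp [hl v]
  · by_cases h1 : G.Adj v y
    · simp [h, h1, ha _ _ h1]
    · by_cases h2 : G.Adj y v <;> simp [h, h1, h2]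

lemma ab1_le [Fintype V] (G : Digraph V) (hl : ∀ v, ¬ G.Adj v v)
    (ha : ∀ u v, G.Adj u v → ¬ G.Adj v u) (p : V → V → ℝ) (hp : DSOn G p) (v w : V) :
    a1 G p v w + inW G p v w ≤ 1 := by
  unfold a1 inW
  rw [← Finset.sum_add_distrib, ← hp.col w]
  apply Finset.sum_le_sum
  intro y _
  have h := DMM_le G hl ha v y
  have h2 := hp.nonneg y w
  nlinarith

lemma ab2_le [Fintype V] (G : Digraph V) (hl : ∀ v, ¬ G.Adj v v)
    (ha : ∀ u v, G.Adj u v → ¬ G.Adj v u) (q : V → V → ℝ) (hq : DSOn G q) (v w : V) :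
    a2 G q v w + outW G q v w ≤ 1 := by
  unfold a2 outW
  rw [← Finset.sum_add_distrib, ← hq.row v]
  apply Finset.sum_le_sum
  intro x _
  have h := DMM_le G hl ha x w
  have h2 := hq.nonneg v x
  nlinarith

lemma inW_nonneg [Fintype V] (G : Digraph V) (p : V → V → ℝ) (hp : DSOn G p) (v w : V) :
    0 ≤ inW G p v w :=
  Finset.sum_nonneg fun _ _ => mul_nonneg (M_nonneg G _ _) (hp.nonneg _ _)

lemma outW_nonneg [Fintype V] (G : Digraph V) (p : V → V → ℝ) (hp : DSOn G p) (v w : V) :
    0 ≤ outW G p v w :=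
  Finset.sum_nonneg fun _ _ => mul_nonneg (hp.nonneg _ _) (M_nonneg G _ _)

lemma a1_far [Fintype V] (G : Digraph V) (p : V → V → ℝ) (hp : DSOn G p) (v w : V)
    (h : Far G v w) : a1 G p v w = 0 := by
  unfold a1
  apply Finset.sum_eq_zero
  intro y _
  by_contra hne
  have h1 : p y w ≠ 0 := right_ne_zero_of_mul hne
  have h2 : D v y + M G v y ≠ 0 := left_ne_zero_of_mul hne
  obtain ⟨f1, f2, f3⟩ := h
  have h3 : v = y ∨ G.Adj v y := by
    by_contra hc
    push Not at hc
    apply h2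
    simp [D, M, hc.1, hc.2]
  rcases hp.supp y w h1 with e | e
  · subst e
    rcases h3 with e | e
    · exact f1 e.symm
    · exact f2 e
  · rcases h3 with e' | e'
    · subst e'; exact f2 e
    · exact f3 ⟨y, e', e⟩

lemma a2_far [Fintype V] (G : Digraph V) (q : V → V → ℝ) (hq : DSOn G q) (v w : V)
    (h : Far G v w) : a2 G q v w = 0 := by
  unfold a2
  apply Finset.sum_eq_zero
  intro x _
  by_contra hne
  have h1 : q v x ≠ 0 := left_ne_zero_of_mul hne
  have h2 : D x w + M G x w ≠ 0 := right_ne_zero_of_mul hne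
  obtain ⟨f1, f2, f3⟩ := h
  have h3 : x = w ∨ G.Adj x w := by
    by_contra hc
    push Not at hc
    apply h2
    simp [D, M, hc.1, hc.2]
  rcases hq.supp v x h1 with e | e
  · subst e
    rcases h3 with e | e
    · exact f1 e.symm
    · exact f2 e
  · rcases h3 with e' | e'
    · subst e'; exact f2 e
    · exact f3 ⟨x, e, e'⟩

/-- pointwise inequality -/
lemma pointwise [Fintype V] (G : Digraph V) (hl : ∀ v, ¬ G.Adj v v)
    (ha : ∀ u v, G.Adj u v → ¬ G.Adj v u) (q p : V → V → ℝ) (hq : DSOn G q) (hp : DSOn G p)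
    (v w : V) :
    a1 G p v w + a2 G q v w - a1 G p v w * a2 G q v w + inW G p v w * outW G q v w
      - (if Far G v w then inW G p v w * outW G q v w else 0) ≤ nr G v w := by
  unfold nr
  by_cases h : Far G v w
  · rw [if_pos h, if_pos h, a1_far G p hp v w h, a2_far G q hq v w h]
    linarith
  · rw [if_neg h, if_neg h]
    have h1 := ab1_le G hl ha p hp v w
    have h2 := ab2_le G hl ha q hq v w
    have h3 := inW_nonneg G p hp v w
    have h4 := outW_nonneg G q hq v w
    have h5 : inW G p v w * outW G q v w ≤ (1 - a1 G p v w) * (1 - a2 G q v w) :=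
      mul_le_mul (by linarith) (by linarith) h4 (by linarith)
    nlinarith

lemma sum_D_left [Fintype V] (v : V) : ∑ w, (D v w : ℝ) = 1 := by
  unfold D; simp

/-- `∑ a1 = |A|` -/
lemma sum_a1 [Fintype V] (G : Digraph V) (p : V → V → ℝ) (hp : DSOn G p) :
    ∑ v, ∑ w, a1 G p v w = ∑ v, ∑ y, (D v y + M G v y) := by
  unfold a1
  apply Finset.sum_congr rfl
  intro v _
  rw [Finset.sum_comm]
  apply Finset.sum_congr rfl
  intro y _
  rw [← Finset.mul_sum, hp.row y, mul_one]

lemma sum_a2 [Fintype V] (G : Digraph V) (q : V → V → ℝ) (hq : DSOn G q) :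
    ∑ v, ∑ w, a2 G q v w = ∑ x, ∑ w, (D x w + M G x w) := by
  unfold a2
  have : ∀ v, ∑ w, ∑ x, q v x * (D x w + M G x w) = ∑ x, q v x * ∑ w, (D x w + M G x w) := by
    intro v
    rw [Finset.sum_comm]
    apply Finset.sum_congr rfl
    intro x _
    rw [Finset.mul_sum]
  simp_rw [this]
  rw [Finset.sum_comm]
  apply Finset.sum_congr rfl
  intro x _
  rw [← Finset.sum_mul, hq.col x, one_mul]

/-- quadruple sum for `∑ a1 a2` -/
lemma sum_aa [Fintype V] (G : Digraph V) (q p : V → V → ℝ) :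
    ∑ v, ∑ w, a1 G p v w * a2 G q v w =
      ∑ v, ∑ w, ∑ y, ∑ x, (D v y + M G v y) * (D x w + M G x w) * (q v x * p y w) := by
  unfold a1 a2
  apply Finset.sum_congr rfl; intro v _
  apply Finset.sum_congr rfl; intro w _
  rw [Finset.sum_mul_sum]
  apply Finset.sum_congr rfl; intro y _
  apply Finset.sum_congr rfl; intro x _
  ring

/-- quadruple sum for `∑ b1' b2'` (roles of `p` and `q` exchanged) -/
lemma sum_bb [Fintype V] (G : Digraph V) (q p : V → V → ℝ) :
    ∑ v, ∑ w, inW G q v w * outW G p v w =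
      ∑ v, ∑ w, ∑ y, ∑ x, M G v y * M G x w * (q v x * p y w) := by
  unfold inW outW
  have h1 : ∑ v, ∑ w, (∑ y, M G y v * q y w) * (∑ x, p v x * M G w x) =
      ∑ v, ∑ w, ∑ y, ∑ x, M G y v * M G w x * (q y w * p v x) := by
    apply Finset.sum_congr rfl; intro v _
    apply Finset.sum_congr rfl; intro w _
    rw [Finset.sum_mul_sum]
    apply Finset.sum_congr rfl; intro y _
    apply Finset.sum_congr rfl; intro x _
    ring
  rw [h1]
  -- rename: (v,w,y,x) -> (y,x,v,w)
  calc ∑ v, ∑ w, ∑ y, ∑ x, M G y v * M G w x * (q y w * p v x)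
      = ∑ v, ∑ y, ∑ w, ∑ x, M G y v * M G w x * (q y w * p v x) := by
        apply Finset.sum_congr rfl; intro v _; rw [Finset.sum_comm]
    _ = ∑ y, ∑ v, ∑ w, ∑ x, M G y v * M G w x * (q y w * p v x) := by
        rw [Finset.sum_comm]
    _ = ∑ y, ∑ v, ∑ x, ∑ w, M G y v * M G w x * (q y w * p v x) := by
        apply Finset.sum_congr rfl; intro y _
        apply Finset.sum_congr rfl; intro v _
        rw [Finset.sum_comm]
    _ = ∑ y, ∑ x, ∑ v, ∑ w, M G y v * M G w x * (q y w * p v x) := by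
        apply Finset.sum_congr rfl; intro y _
        rw [Finset.sum_comm]

/-- the difference of the quadruple sums, first form -/
lemma diff_eq [Fintype V] (G : Digraph V) (q p : V → V → ℝ) :
    ∑ v, ∑ w, a1 G p v w * a2 G q v w - ∑ v, ∑ w, inW G q v w * outW G p v w =
      (∑ v, ∑ x, ∑ w, (D x w + M G x w) * (q v x * p v w)) +
      ∑ v, ∑ y, ∑ x, M G v y * (q v x * p y x) := by
  rw [sum_aa, sum_bb, ← Finset.sum_sub_distrib, ← Finset.sum_add_distrib]
  apply Finset.sum_congr rfl; intro v _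
  rw [← Finset.sum_sub_distrib]
  have h1 : ∀ w, (∑ y, ∑ x, (D v y + M G v y) * (D x w + M G x w) * (q v x * p y w)) -
      ∑ y, ∑ x, M G v y * M G x w * (q v x * p y w) =
      (∑ x, (D x w + M G x w) * (q v x * p v w)) + ∑ y, M G v y * (q v w * p y w) := by
    intro w
    rw [← Finset.sum_sub_distrib]
    have e1 : ∀ y, (∑ x, (D v y + M G v y) * (D x w + M G x w) * (q v x * p y w)) -
        ∑ x, M G v y * M G x w * (q v x * p y w) =
        D v y * (∑ x, (D x w + M G x w) * (q v x * p y w)) + M G v y * (q v w * p y w) := by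
      intro y
      have e2 : M G v y * (q v w * p y w) = ∑ x, M G v y * (D x w * (q v x * p y w)) := by
        rw [← Finset.mul_sum]
        congr 1
        unfold D
        simp
      rw [e2, Finset.mul_sum, ← Finset.sum_sub_distrib, ← Finset.sum_add_distrib]
      apply Finset.sum_congr rfl; intro x _
      ring
    simp_rw [e1]
    rw [Finset.sum_add_distrib]
    congr 1
    unfold D
    simp
  simp_rw [h1]
  rw [Finset.sum_add_distrib]
  congr 1
  · rw [Finset.sum_comm]
  · rw [Finset.sum_comm]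


/-- first extra term -/
noncomputable def F1 [Fintype V] (G : Digraph V) (q p : V → V → ℝ) : ℝ :=
  ∑ v, ∑ x, ∑ w, (D x w + M G x w) * (q v x * p v w)

/-- second extra term -/
noncomputable def F2 [Fintype V] (G : Digraph V) (q p : V → V → ℝ) : ℝ :=
  ∑ v, ∑ y, ∑ x, M G v y * (q v x * p y x)

lemma F1_le [Fintype V] (G : Digraph V) (hl : ∀ v, ¬ G.Adj v v)
    (ha : ∀ u v, G.Adj u v → ¬ G.Adj v u) (q p : V → V → ℝ) (hq : DSOn G q) (hp : DSOn G p) :
    F1 G q p + F1 G p q ≤ Fintype.card V + ∑ v, ∑ x, q v x * p v x := by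
  have h1 : F1 G p q = ∑ v, ∑ x, ∑ w, (D w x + M G w x) * (q v x * p v w) := by
    unfold F1
    apply Finset.sum_congr rfl; intro v _
    rw [Finset.sum_comm]
    apply Finset.sum_congr rfl; intro x _
    apply Finset.sum_congr rfl; intro w _
    ring
  have h2 : (Fintype.card V : ℝ) = ∑ v, ∑ x, ∑ w, q v x * p v w := by
    have : ∀ v, ∑ x, ∑ w, q v x * p v w = 1 := by
      intro v
      rw [← Finset.sum_mul_sum, hq.row v, hp.row v, one_mul]
    simp_rw [this]
    simp
  have h3 : ∑ v, ∑ x, q v x * p v x = ∑ v, ∑ x, ∑ w, D w x * (q v x * p v w) := by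
    apply Finset.sum_congr rfl; intro v _
    apply Finset.sum_congr rfl; intro x _
    unfold D
    simp
  rw [h1, h2, h3]
  unfold F1
  rw [← Finset.sum_add_distrib, ← Finset.sum_add_distrib]
  apply Finset.sum_le_sum; intro v _
  rw [← Finset.sum_add_distrib, ← Finset.sum_add_distrib]
  apply Finset.sum_le_sum; intro x _
  rw [← Finset.sum_add_distrib, ← Finset.sum_add_distrib]
  apply Finset.sum_le_sum; intro w _
  have e1 := DMM_le G hl ha x w
  have e2 : 0 ≤ q v x * p v w := mul_nonneg (hq.nonneg _ _) (hp.nonneg _ _)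
  nlinarith

lemma F2_le [Fintype V] (G : Digraph V) (hl : ∀ v, ¬ G.Adj v v)
    (ha : ∀ u v, G.Adj u v → ¬ G.Adj v u) (q p : V → V → ℝ) (hq : DSOn G q) (hp : DSOn G p) :
    F2 G q p + F2 G p q + ∑ v, ∑ x, q v x * p v x ≤ Fintype.card V := by
  have h1 : F2 G p q = ∑ v, ∑ y, ∑ x, M G y v * (q v x * p y x) := by
    unfold F2
    rw [Finset.sum_comm]
    apply Finset.sum_congr rfl; intro v _
    apply Finset.sum_congr rfl; intro y _
    apply Finset.sum_congr rfl; intro x _
    ring
  have h2 : (Fintype.card V : ℝ) = ∑ v, ∑ y, ∑ x, q v x * p y x := by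
    have : ∑ v, ∑ y, ∑ x, q v x * p y x = ∑ x, ∑ v, ∑ y, q v x * p y x := by
      calc ∑ v, ∑ y, ∑ x, q v x * p y x = ∑ v, ∑ x, ∑ y, q v x * p y x := by
            apply Finset.sum_congr rfl; intro v _; rw [Finset.sum_comm]
        _ = _ := by rw [Finset.sum_comm]
    rw [this]
    have : ∀ x, ∑ v, ∑ y, q v x * p y x = 1 := by
      intro x
      rw [← Finset.sum_mul_sum, hq.col x, hp.col x, one_mul]
    simp_rw [this]
    simp
  have h3 : ∑ v, ∑ x, q v x * p v x = ∑ v, ∑ y, ∑ x, D v y * (q v x * p y x) := by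
    apply Finset.sum_congr rfl; intro v _
    rw [Finset.sum_comm]
    apply Finset.sum_congr rfl; intro x _
    unfold D
    simp
  rw [h1, h2, h3]
  unfold F2
  rw [← Finset.sum_add_distrib, ← Finset.sum_add_distrib]
  apply Finset.sum_le_sum; intro v _
  rw [← Finset.sum_add_distrib, ← Finset.sum_add_distrib]
  apply Finset.sum_le_sum; intro y _
  rw [← Finset.sum_add_distrib, ← Finset.sum_add_distrib]
  apply Finset.sum_le_sum; intro x _
  have e1 := DMM_le G hl ha v y
  have e2 : 0 ≤ q v x * p y x := mul_nonneg (hq.nonneg _ _) (hp.nonneg _ _)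
  nlinarith

/-- the correction term: total weight of conflicts on far pairs -/
noncomputable def conflict [Fintype V] (G : Digraph V) (q p : V → V → ℝ) : ℝ :=
  ∑ v, ∑ w, if Far G v w then inW G p v w * outW G q v w else 0

/-- summed pointwise inequality -/
lemma summed [Fintype V] (G : Digraph V) (hl : ∀ v, ¬ G.Adj v v)
    (ha : ∀ u v, G.Adj u v → ¬ G.Adj v u) (q p : V → V → ℝ) (hq : DSOn G q) (hp : DSOn G p) :
    2 * (∑ v, ∑ y, (D v y + M G v y)) - ∑ v, ∑ w, a1 G p v w * a2 G q v w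
      + ∑ v, ∑ w, inW G p v w * outW G q v w - conflict G q p ≤ ∑ v, ∑ w, nr G v w := by
  have h : ∑ v, ∑ w, (a1 G p v w + a2 G q v w - a1 G p v w * a2 G q v w
      + inW G p v w * outW G q v w
      - (if Far G v w then inW G p v w * outW G q v w else 0)) ≤ ∑ v, ∑ w, nr G v w :=
    Finset.sum_le_sum fun v _ => Finset.sum_le_sum fun w _ => pointwise G hl ha q p hq hp v w
  simp only [Finset.sum_sub_distrib, Finset.sum_add_distrib] at h
  have e1 := sum_a1 G p hp
  have e2 := sum_a2 G q hq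
  simp only [Finset.sum_add_distrib] at e1 e2 ⊢
  unfold conflict
  linarith

/-- indicator of distance exactly two -/
noncomputable def N (G : Digraph V) (v w : V) : ℝ :=
  if w ≠ v ∧ ¬ G.Adj v w ∧ ∃ u, G.Adj v u ∧ G.Adj u w then 1 else 0

lemma nr_eq (G : Digraph V) (hl : ∀ v, ¬ G.Adj v v) (v w : V) :
    nr G v w = D v w + M G v w + N G v w := by
  unfold nr D M N Far
  by_cases h : v = w
  · subst h; simp [hl v]
  · have h' : w ≠ v := fun e => h e.symm
    by_cases h1 : G.Adj v w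
    · simp [h, h', h1]
    · by_cases h2 : ∃ u, G.Adj v u ∧ G.Adj u w
      · simp only [h, h1, h2]; simpa using h'
      · simp only [h, h1, h2]; simpa using h'

/-- **Main inequality.** -/
theorem main [Fintype V] (G : Digraph V) (hl : ∀ v, ¬ G.Adj v v)
    (ha : ∀ u v, G.Adj u v → ¬ G.Adj v u) (q p : V → V → ℝ) (hq : DSOn G q) (hp : DSOn G p) :
    ∑ v, ∑ w, M G v w ≤ ∑ v, ∑ w, N G v w + (conflict G q p + conflict G p q) / 2 := by
  have s1 := summed G hl ha q p hq hp
  have s2 := summed G hl ha p q hp hq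
  have d1 := diff_eq G q p
  have d2 := diff_eq G p q
  have f1 := F1_le G hl ha q p hq hp
  have f2 := F2_le G hl ha q p hq hp
  unfold F1 at f1
  unfold F2 at f2
  have hn : ∑ v : V, ∑ w : V, nr G v w = ∑ v : V, ∑ w : V, (D v w : ℝ)
      + ∑ v : V, ∑ w : V, M G v w + ∑ v : V, ∑ w : V, N G v w := by
    simp_rw [nr_eq G hl, Finset.sum_add_distrib]
  have hD : ∑ v : V, ∑ w : V, (D v w : ℝ) = Fintype.card V := by
    simp_rw [sum_D_left]; simp
  have hA : ∑ v : V, ∑ y : V, (D v y + M G v y) =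
      ∑ v : V, ∑ w : V, (D v w : ℝ) + ∑ v : V, ∑ w : V, M G v w := by
    simp_rw [Finset.sum_add_distrib]
  rw [hn, hA] at s1 s2
  rw [hD] at s1 s2
  linarith


lemma ncard_eq_sum [Fintype V] (P : V → Prop) :
    (({w | P w}.ncard : ℕ) : ℝ) = ∑ w, if P w then (1 : ℝ) else 0 := by
  rw [Set.ncard_eq_toFinset_card', Finset.sum_boole]
  congr 2
  ext w
  simp

/-- main inequality with cardinalities -/
theorem main_card [Fintype V] (G : Digraph V) (hl : ∀ v, ¬ G.Adj v v)
    (ha : ∀ u v, G.Adj u v → ¬ G.Adj v u) (q p : V → V → ℝ) (hq : DSOn G q) (hp : DSOn G p) :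
    ((∑ v, {w | G.Adj v w}.ncard : ℕ) : ℝ) ≤
      ((∑ v, {w | w ≠ v ∧ ¬ G.Adj v w ∧ ∃ u, G.Adj v u ∧ G.Adj u w}.ncard : ℕ) : ℝ)
        + (conflict G q p + conflict G p q) / 2 := by
  have h := main G hl ha q p hq hp
  have e1 : ∀ v, ∑ w, M G v w = ({w | G.Adj v w}.ncard : ℝ) := by
    intro v
    rw [ncard_eq_sum]
    rfl
  have e2 : ∀ v, ∑ w, N G v w =
      ({w | w ≠ v ∧ ¬ G.Adj v w ∧ ∃ u, G.Adj v u ∧ G.Adj u w}.ncard : ℝ) := by
    intro v
    rw [ncard_eq_sum]
    apply Finset.sum_congr rfl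
    intro w _
    unfold N
    congr
  simp_rw [e1, e2] at h
  push_cast
  exact h

/-- permutation matrix -/
noncomputable def pm (f : Equiv.Perm V) (v w : V) : ℝ := if f v = w then 1 else 0

lemma pm_ds [Fintype V] (G : Digraph V) (f : Equiv.Perm V) (hf : ∀ v, f v = v ∨ G.Adj v (f v)) :
    DSOn G (pm f) where
  nonneg v w := by unfold pm; split_ifs <;> norm_num
  supp v w h := by
    unfold pm at h
    by_cases e : f v = w
    · rcases hf v with h1 | h1
      · left; rw [← e, h1]
      · right; rw [← e]; exact h1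
    · simp [e] at h
  row v := by unfold pm; simp
  col w := by
    unfold pm
    have : ∀ v, (if f v = w then (1 : ℝ) else 0) = if v = f.symm w then 1 else 0 := by
      intro v
      congr 1
      rw [eq_iff_iff]
      exact ⟨fun h => by rw [← h]; simp, fun h => by rw [h]; simp⟩
    simp_rw [this]
    simp

lemma inW_pm [Fintype V] (G : Digraph V) (f : Equiv.Perm V) (v w : V) :
    inW G (pm f) v w = M G (f.symm w) v := by
  unfold inW pm
  have : ∀ y, (if f y = w then (1 : ℝ) else 0) = if y = f.symm w then 1 else 0 := by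
    intro v
    congr 1
    rw [eq_iff_iff]
    exact ⟨fun h => by rw [← h]; simp, fun h => by rw [h]; simp⟩
  simp_rw [this]
  simp

lemma outW_pm [Fintype V] (G : Digraph V) (f : Equiv.Perm V) (v w : V) :
    outW G (pm f) v w = M G w (f v) := by
  unfold outW pm
  simp

theorem perm_case [Fintype V] (G : Digraph V) (hl : ∀ v, ¬ G.Adj v v)
    (ha : ∀ u v, G.Adj u v → ¬ G.Adj v u) (f g : Equiv.Perm V)
    (hf : ∀ v, f v = v ∨ G.Adj v (f v)) (hg : ∀ v, g v = v ∨ G.Adj v (g v))
    (hfg : ∀ v w, Far G v w → ¬ (G.Adj (g.symm w) v ∧ G.Adj w (f v)) ∧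
      ¬ (G.Adj (f.symm w) v ∧ G.Adj w (g v))) :
    ∑ v, {w | G.Adj v w}.ncard ≤
      ∑ v, {w | w ≠ v ∧ ¬ G.Adj v w ∧ ∃ u, G.Adj v u ∧ G.Adj u w}.ncard := by
  have h := main_card G hl ha (pm f) (pm g) (pm_ds G f hf) (pm_ds G g hg)
  have c1 : conflict G (pm f) (pm g) = 0 := by
    unfold conflict
    apply Finset.sum_eq_zero; intro v _
    apply Finset.sum_eq_zero; intro w _
    split_ifs with hF
    · rw [inW_pm, outW_pm]
      have := (hfg v w hF).1
      unfold M
      by_cases e1 : G.Adj (g.symm w) v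
      · have e2 : ¬ G.Adj w (f v) := fun e2 => this ⟨e1, e2⟩
        simp [e2]
      · simp [e1]
    · rfl
  have c2 : conflict G (pm g) (pm f) = 0 := by
    unfold conflict
    apply Finset.sum_eq_zero; intro v _
    apply Finset.sum_eq_zero; intro w _
    split_ifs with hF
    · rw [inW_pm, outW_pm]
      have := (hfg v w hF).2
      unfold M
      by_cases e1 : G.Adj (f.symm w) v
      · have e2 : ¬ G.Adj w (g v) := fun e2 => this ⟨e1, e2⟩
        simp [e2]
      · simp [e1]
    · rfl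
  rw [c1, c2] at h
  have h' : ((∑ v, {w | G.Adj v w}.ncard : ℕ) : ℝ) ≤
      ((∑ v, {w | w ≠ v ∧ ¬ G.Adj v w ∧ ∃ u, G.Adj v u ∧ G.Adj u w}.ncard : ℕ) : ℝ) := by
    linarith
  exact_mod_cast h'

/-- `1/d` times the adjacency matrix -/
noncomputable def um (G : Digraph V) (d : ℕ) (v w : V) : ℝ := M G v w / d

lemma um_ds [Fintype V] (G : Digraph V) (d : ℕ) (hd : 0 < d)
    (ho : ∀ v, {w | G.Adj v w}.ncard = d) (hi : ∀ v, {w | G.Adj w v}.ncard = d) :
    DSOn G (um G d) where
  nonneg v w := div_nonneg (M_nonneg G v w) (by positivity)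
  supp v w h := by
    right
    by_contra hc
    apply h
    simp [um, M, hc]
  row v := by
    unfold um
    rw [← Finset.sum_div]
    have h1 : ∑ w, M G v w = d := by
      rw [← ho v, ncard_eq_sum]; rfl
    rw [h1]
    field_simp
  col w := by
    unfold um
    rw [← Finset.sum_div]
    have h1 : ∑ v, M G v w = d := by
      rw [← hi w, ncard_eq_sum]; rfl
    rw [h1]
    field_simp

lemma inW_um [Fintype V] (G : Digraph V) (d : ℕ) (v w : V) :
    inW G (um G d) v w = ({a | G.Adj a v ∧ G.Adj a w}.ncard : ℝ) / d := by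
  unfold inW um
  rw [ncard_eq_sum, Finset.sum_div]
  apply Finset.sum_congr rfl; intro y _
  unfold M
  by_cases h1 : G.Adj y v <;> by_cases h2 : G.Adj y w <;> simp [h1, h2]

lemma outW_um [Fintype V] (G : Digraph V) (d : ℕ) (v w : V) :
    outW G (um G d) v w = ({b | G.Adj v b ∧ G.Adj w b}.ncard : ℝ) / d := by
  unfold outW um
  rw [ncard_eq_sum, Finset.sum_div]
  apply Finset.sum_congr rfl; intro y _
  unfold M
  by_cases h1 : G.Adj v y <;> by_cases h2 : G.Adj w y <;> simp [h1, h2]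

theorem regular_case [Fintype V] (G : Digraph V) (hl : ∀ v, ¬ G.Adj v v)
    (ha : ∀ u v, G.Adj u v → ¬ G.Adj v u) (d : ℕ) (hd : 0 < d)
    (ho : ∀ v, {w | G.Adj v w}.ncard = d) (hi : ∀ v, {w | G.Adj w v}.ncard = d) :
    (∑ v, ({w | G.Adj v w}.ncard : ℝ)) ≤
      (∑ v, ({w | w ≠ v ∧ ¬ G.Adj v w ∧ ∃ u, G.Adj v u ∧ G.Adj u w}.ncard : ℝ))
        + (∑ v, ∑ w, if Far G v w then ({a | G.Adj a v ∧ G.Adj a w}.ncard : ℝ)
            * ({b | G.Adj v b ∧ G.Adj w b}.ncard : ℝ) else 0) / (d : ℝ) ^ 2 := by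
  have h := main_card G hl ha (um G d) (um G d) (um_ds G d hd ho hi) (um_ds G d hd ho hi)
  have c : (conflict G (um G d) (um G d) + conflict G (um G d) (um G d)) / 2 =
      (∑ v, ∑ w, if Far G v w then ({a | G.Adj a v ∧ G.Adj a w}.ncard : ℝ)
            * ({b | G.Adj v b ∧ G.Adj w b}.ncard : ℝ) else 0) / (d : ℝ) ^ 2 := by
    have : conflict G (um G d) (um G d) =
        (∑ v, ∑ w, if Far G v w then ({a | G.Adj a v ∧ G.Adj a w}.ncard : ℝ)
            * ({b | G.Adj v b ∧ G.Adj w b}.ncard : ℝ) else 0) / (d : ℝ) ^ 2 := by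
      unfold conflict
      rw [Finset.sum_div]
      apply Finset.sum_congr rfl; intro v _
      rw [Finset.sum_div]
      apply Finset.sum_congr rfl; intro w _
      split_ifs with hF
      · rw [inW_um, outW_um]
        field_simp
      · simp
    rw [this]
    ring
  rw [c] at h
  push_cast at h
  exact h

theorem regular_free [Fintype V] (G : Digraph V) (hl : ∀ v, ¬ G.Adj v v)
    (ha : ∀ u v, G.Adj u v → ¬ G.Adj v u) (d : ℕ)
    (ho : ∀ v, {w | G.Adj v w}.ncard = d) (hi : ∀ v, {w | G.Adj w v}.ncard = d)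
    (hfree : ∀ v w, Far G v w → (∃ a, G.Adj a v ∧ G.Adj a w) → ¬ ∃ b, G.Adj v b ∧ G.Adj w b) :
    ∑ v, {w | G.Adj v w}.ncard ≤
      ∑ v, {w | w ≠ v ∧ ¬ G.Adj v w ∧ ∃ u, G.Adj v u ∧ G.Adj u w}.ncard := by
  rcases Nat.eq_zero_or_pos d with h0 | hd
  · have : ∑ v, {w | G.Adj v w}.ncard = 0 := by
      apply Finset.sum_eq_zero; intro v _; rw [ho v, h0]
    omega
  have h := regular_case G hl ha d hd ho hi
  have c : (∑ v, ∑ w, if Far G v w then ({a | G.Adj a v ∧ G.Adj a w}.ncard : ℝ)
            * ({b | G.Adj v b ∧ G.Adj w b}.ncard : ℝ) else 0) = 0 := by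
    apply Finset.sum_eq_zero; intro v _
    apply Finset.sum_eq_zero; intro w _
    split_ifs with hF
    · by_cases e : ∃ a, G.Adj a v ∧ G.Adj a w
      · have e2 := hfree v w hF e
        have e3 : {b | G.Adj v b ∧ G.Adj w b} = ∅ := by
          ext b
          simp only [Set.mem_ofPred_eq, Set.mem_empty_iff_false, iff_false]
          exact fun hb => e2 ⟨b, hb⟩
        rw [e3]; simp
      · have e3 : {a | G.Adj a v ∧ G.Adj a w} = ∅ := by
          ext b
          simp only [Set.mem_ofPred_eq, Set.mem_empty_iff_false, iff_false]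
          exact fun hb => e ⟨b, hb⟩
        rw [e3]; simp
    · rfl
  rw [c] at h
  simp only [zero_div, add_zero] at h
  exact_mod_cast h



end Pool.Agent.H692.Coup
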