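import Mathlib
import Pool.Agent.H692.Coup

set_option autoImplicit false

open Finset
open scoped Classical

namespace Pool.Agent.H692.FN

open Pool.Agent.H692.Coup

variable {V : Type}

lemma M_sq (G : Digraph V) (v w : V) : M G v w * M G v w = M G v w := by
  unfold M; split_ifs <;> norm_num

lemma DMM' (G : Digraph V) (hl : ∀ v, ¬ G.Adj v v) (ha : ∀ u v, G.Adj u v → ¬ G.Adj v u)
    (v y : V) : 0 ≤ 1 - D v y - M G v y - M G y v := by
  have := DMM_le G hl ha v y; linarith

/-- common in-neighbours -/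
noncomputable def ci [Fintype V] (G : Digraph V) (v w : V) : ℝ := ∑ a, M G a v * M G a w
/-- common out-neighbours -/
noncomputable def co [Fintype V] (G : Digraph V) (v w : V) : ℝ := ∑ b, M G v b * M G w b
/-- transitive triangles -/
noncomputable def TT [Fintype V] (G : Digraph V) : ℝ := ∑ v, ∑ w, M G w v * ci G v w

lemma ci_nonneg [Fintype V] (G : Digraph V) (v w : V) : 0 ≤ ci G v w :=
  Finset.sum_nonneg fun _ _ => mul_nonneg (M_nonneg G _ _) (M_nonneg G _ _)
lemma co_nonneg [Fintype V] (G : Digraph V) (v w : V) : 0 ≤ co G v w :=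
  Finset.sum_nonneg fun _ _ => mul_nonneg (M_nonneg G _ _) (M_nonneg G _ _)

lemma TT_co [Fintype V] (G : Digraph V) : ∑ v, ∑ w, M G w v * co G v w = TT G := by
  unfold TT ci co
  simp_rw [Finset.mul_sum]
  -- LHS: v w b : M w v * (M v b * M w b);  RHS: v w a : M w v * (M a v * M a w)
  -- rename RHS (a,w,v) := (w, v, b)
  calc ∑ v, ∑ w, ∑ b, M G w v * (M G v b * M G w b)
      = ∑ v, ∑ b, ∑ w, M G w v * (M G v b * M G w b) := by
        apply Finset.sum_congr rfl; intro v _; rw [Finset.sum_comm]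
    _ = ∑ b, ∑ v, ∑ w, M G w v * (M G v b * M G w b) := by rw [Finset.sum_comm]
    _ = ∑ v, ∑ w, ∑ a, M G w v * (M G a v * M G a w) := by
        apply Finset.sum_congr rfl; intro b _
        apply Finset.sum_congr rfl; intro v _
        apply Finset.sum_congr rfl; intro w _
        ring

lemma TT_symm [Fintype V] (G : Digraph V) : ∑ v, ∑ w, M G v w * ci G v w = TT G := by
  unfold TT
  rw [Finset.sum_comm]
  apply Finset.sum_congr rfl; intro v _
  apply Finset.sum_congr rfl; intro w _
  unfold ci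
  congr 1
  apply Finset.sum_congr rfl; intro a _
  ring

/-- first bound: defect at most `T/d` -/
lemma boundA [Fintype V] (G : Digraph V) (hl : ∀ v, ¬ G.Adj v v)
    (ha : ∀ u v, G.Adj u v → ¬ G.Adj v u) (d : ℕ) (hd : 0 < d)
    (ho : ∀ v, {w | G.Adj v w}.ncard = d) (hi : ∀ v, {w | G.Adj w v}.ncard = d) :
    ∑ v, ∑ w, M G v w ≤ ∑ v, ∑ w, N G v w + TT G / d := by
  have hI : DSOn G (pm (Equiv.refl V)) := pm_ds G _ (fun v => Or.inl rfl)
  have hU := um_ds G d hd ho hi
  have h := main G hl ha _ _ hI hU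
  have dpos : (0 : ℝ) < d := by exact_mod_cast hd
  have e1 : ∀ v w, inW G (um G d) v w = ci G v w / d := by
    intro v w
    unfold inW um ci
    rw [Finset.sum_div]
    apply Finset.sum_congr rfl; intro y _; ring
  have e2 : ∀ v w, outW G (um G d) v w = co G v w / d := by
    intro v w
    unfold outW um co
    rw [Finset.sum_div]
    apply Finset.sum_congr rfl; intro y _; ring
  have c1 : conflict G (pm (Equiv.refl V)) (um G d) ≤ TT G / d := by
    unfold conflict TT
    rw [Finset.sum_div]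
    apply Finset.sum_le_sum; intro v _
    rw [Finset.sum_div]
    apply Finset.sum_le_sum; intro w _
    have hn : 0 ≤ M G w v * ci G v w / d :=
      div_nonneg (mul_nonneg (M_nonneg G _ _) (ci_nonneg G v w)) dpos.le
    split_ifs with hF
    · rw [e1, outW_pm]
      simp only [Equiv.refl_apply]
      apply le_of_eq; ring
    · exact hn
  have c2 : conflict G (um G d) (pm (Equiv.refl V)) ≤ TT G / d := by
    rw [← TT_co]
    unfold conflict
    rw [Finset.sum_div]
    apply Finset.sum_le_sum; intro v _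
    rw [Finset.sum_div]
    apply Finset.sum_le_sum; intro w _
    have hn : 0 ≤ M G w v * co G v w / d :=
      div_nonneg (mul_nonneg (M_nonneg G _ _) (co_nonneg G v w)) dpos.le
    split_ifs with hF
    · rw [e2, inW_pm]
      simp only [Equiv.refl_symm, Equiv.refl_apply]
      apply le_of_eq; ring
    · exact hn
  linarith

/-- triple inequality, distinct part -/
lemma six (G : Digraph V) (hl : ∀ v, ¬ G.Adj v v)
    (ha : ∀ u v, G.Adj u v → ¬ G.Adj v u) (g : V → V → V → ℝ)
    (hg : ∀ x y z, g x y z = M G x y * (1 - D z x - M G z x) * (1 - D z y)) (x y z : V) :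
    g x y z + g x z y + g y x z + g y z x + g z x y + g z y x
      ≤ 2 - 2 * (D x y + D y z + D z x) + 4 * (D x y * D y z) := by
  simp only [hg]
  unfold D M
  by_cases h1 : x = y
  · subst h1
    by_cases h2 : x = z
    · subst h2; simp [hl x]; norm_num
    · have h2' : z ≠ x := fun e => h2 e.symm
      simp [h2, h2', hl x]
  · have h1' : y ≠ x := fun e => h1 e.symm
    by_cases h2 : x = z
    · subst h2; simp [h1, h1', hl x]
    · have h2' : z ≠ x := fun e => h2 e.symm
      by_cases h3 : y = z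
      · subst h3; simp [h1, h1', hl y]
      · have h3' : z ≠ y := fun e => h3 e.symm
        have p1 := ha x y
        have p2 := ha y z
        have p3 := ha x z
        by_cases a1 : G.Adj x y <;> by_cases a2 : G.Adj y x <;> by_cases b1 : G.Adj y z <;>
          by_cases b2 : G.Adj z y <;> by_cases c1 : G.Adj x z <;> by_cases c2 : G.Adj z x <;>
          simp_all <;> norm_num

lemma sumD [Fintype V] (h : V → ℝ) (x : V) : ∑ z, h z * D z x = h x := by
  unfold D; simp

lemma sumD' [Fintype V] (h : V → ℝ) (x : V) : ∑ z, h z * D x z = h x := by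
  unfold D; simp

/-- the triple count in an out-neighbourhood -/
lemma tripleSum [Fintype V] (G : Digraph V) (hl : ∀ v, ¬ G.Adj v v)
    (ha : ∀ u v, G.Adj u v → ¬ G.Adj v u) (h : V → ℝ) (h0 : ∀ x, 0 ≤ h x)
    (h2 : ∀ x, h x * h x = h x) (d : ℝ) (hs : ∑ x, h x = d) :
    ∑ x, ∑ y, ∑ z, h x * h y * h z * (M G x y * (1 - D z x - M G z x))
      ≤ d * (d - 1) * (2 * d - 1) / 6 := by
  set g : V → V → V → ℝ := fun x y z => M G x y * (1 - D z x - M G z x) * (1 - D z y) with hg
  have hsix := six G hl ha g (fun x y z => rfl)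
  set F : V → V → V → ℝ := fun x y z => h x * h y * h z * g x y z with hF
  have s1 : ∑ x, ∑ y, ∑ z, F x z y = ∑ x, ∑ y, ∑ z, F x y z := by
    apply Finset.sum_congr rfl; intro x _; rw [Finset.sum_comm]
  have s2 : ∑ x, ∑ y, ∑ z, F y x z = ∑ x, ∑ y, ∑ z, F x y z := by
    rw [Finset.sum_comm]
  have s3 : ∑ x, ∑ y, ∑ z, F y z x = ∑ x, ∑ y, ∑ z, F x y z := by
    calc ∑ x, ∑ y, ∑ z, F y z x = ∑ y, ∑ x, ∑ z, F y z x := by rw [Finset.sum_comm]
      _ = ∑ y, ∑ z, ∑ x, F y z x := by
          apply Finset.sum_congr rfl; intro y _; rw [Finset.sum_comm]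
  have s4 : ∑ x, ∑ y, ∑ z, F z x y = ∑ x, ∑ y, ∑ z, F x y z := by
    calc ∑ x, ∑ y, ∑ z, F z x y = ∑ x, ∑ z, ∑ y, F z x y := by
          apply Finset.sum_congr rfl; intro y _; rw [Finset.sum_comm]
      _ = ∑ z, ∑ x, ∑ y, F z x y := by rw [Finset.sum_comm]
  have s5 : ∑ x, ∑ y, ∑ z, F z y x = ∑ x, ∑ y, ∑ z, F x y z := by
    calc ∑ x, ∑ y, ∑ z, F z y x = ∑ x, ∑ z, ∑ y, F z y x := by
          apply Finset.sum_congr rfl; intro y _; rw [Finset.sum_comm]
      _ = ∑ z, ∑ x, ∑ y, F z y x := by rw [Finset.sum_comm]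
      _ = ∑ z, ∑ y, ∑ x, F z y x := by
          apply Finset.sum_congr rfl; intro y _; rw [Finset.sum_comm]
  have hle : ∑ x, ∑ y, ∑ z, (F x y z + F x z y + F y x z + F y z x + F z x y + F z y x) ≤
      ∑ x, ∑ y, ∑ z, (2 * (h x * h y * h z) - 2 * (h x * h y * h z * D x y)
        - 2 * (h x * h y * h z * D y z) - 2 * (h x * h y * h z * D z x)
        + 4 * (h x * h y * h z * (D x y * D y z))) := by
    apply Finset.sum_le_sum; intro x _
    apply Finset.sum_le_sum; intro y _
    apply Finset.sum_le_sum; intro z _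
    have hh : 0 ≤ h x * h y * h z := mul_nonneg (mul_nonneg (h0 x) (h0 y)) (h0 z)
    have := mul_le_mul_of_nonneg_left (hsix x y z) hh
    simp only [hF]
    nlinarith
  have hL : ∑ x, ∑ y, ∑ z, (F x y z + F x z y + F y x z + F y z x + F z x y + F z y x) =
      6 * ∑ x, ∑ y, ∑ z, F x y z := by
    simp only [Finset.sum_add_distrib]
    rw [s1, s2, s3, s4, s5]; ring
  have hR : ∑ x, ∑ y, ∑ z, (2 * (h x * h y * h z) - 2 * (h x * h y * h z * D x y)
        - 2 * (h x * h y * h z * D y z) - 2 * (h x * h y * h z * D z x)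
        + 4 * (h x * h y * h z * (D x y * D y z))) =
      2 * (∑ x, ∑ y, ∑ z, h x * h y * h z) - 2 * (∑ x, ∑ y, ∑ z, h x * h y * h z * D x y)
        - 2 * (∑ x, ∑ y, ∑ z, h x * h y * h z * D y z)
        - 2 * (∑ x, ∑ y, ∑ z, h x * h y * h z * D z x)
        + 4 * (∑ x, ∑ y, ∑ z, h x * h y * h z * (D x y * D y z)) := by
    simp only [Finset.mul_sum, Finset.sum_add_distrib, Finset.sum_sub_distrib]
  rw [hL, hR] at hle
  have t0 : ∑ x, ∑ y, ∑ z, h x * h y * h z = d ^ 3 := by
    simp_rw [← Finset.mul_sum, hs, ← Finset.sum_mul, ← Finset.mul_sum, hs, ← Finset.sum_mul, hs]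
    ring
  have t1 : ∑ x, ∑ y, ∑ z, h x * h y * h z * D x y = d ^ 2 := by
    have : ∀ x y, ∑ z, h x * h y * h z * D x y = d * (h x * (h y * D x y)) := by
      intro x y
      rw [← hs, Finset.sum_mul]
      apply Finset.sum_congr rfl; intro z _; ring
    simp_rw [this, ← Finset.mul_sum, sumD', h2, hs]; ring
  have t2 : ∑ x, ∑ y, ∑ z, h x * h y * h z * D y z = d ^ 2 := by
    have : ∀ x y, ∑ z, h x * h y * h z * D y z = h x * h y := by
      intro x y
      have : ∑ z, h x * h y * h z * D y z = h x * h y * ∑ z, h z * D y z := by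
        rw [Finset.mul_sum]; apply Finset.sum_congr rfl; intro z _; ring
      rw [this, sumD', mul_assoc, h2]
    simp_rw [this, ← Finset.mul_sum, hs, ← Finset.sum_mul, hs]; ring
  have t3 : ∑ x, ∑ y, ∑ z, h x * h y * h z * D z x = d ^ 2 := by
    have : ∀ x y, ∑ z, h x * h y * h z * D z x = h x * h y := by
      intro x y
      have : ∑ z, h x * h y * h z * D z x = h x * h y * ∑ z, h z * D z x := by
        rw [Finset.mul_sum]; apply Finset.sum_congr rfl; intro z _; ring
      rw [this, sumD]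
      have := h2 x
      calc h x * h y * h x = (h x * h x) * h y := by ring
        _ = h x * h y := by rw [this]
    simp_rw [this, ← Finset.mul_sum, hs, ← Finset.sum_mul, hs]; ring
  have t4 : ∑ x, ∑ y, ∑ z, h x * h y * h z * (D x y * D y z) = d := by
    have : ∀ x y, ∑ z, h x * h y * h z * (D x y * D y z) = h x * (h y * D x y) := by
      intro x y
      have : ∑ z, h x * h y * h z * (D x y * D y z) = h x * h y * D x y * ∑ z, h z * D y z := by
        rw [Finset.mul_sum]; apply Finset.sum_congr rfl; intro z _; ring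
      rw [this, sumD']
      have := h2 y
      calc h x * h y * D x y * h y = h x * ((h y * h y) * D x y) := by ring
        _ = h x * (h y * D x y) := by rw [this]
    simp_rw [this, ← Finset.mul_sum, sumD', h2, hs]
  rw [t0, t1, t2, t3, t4] at hle
  -- the diagonal part
  have hsplit : ∑ x, ∑ y, ∑ z, h x * h y * h z * (M G x y * (1 - D z x - M G z x)) =
      ∑ x, ∑ y, ∑ z, F x y z +
        ∑ x, ∑ y, ∑ z, h x * h y * h z * (M G x y * (1 - D z x - M G z x)) * D z y := by
    simp only [← Finset.sum_add_distrib]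
    apply Finset.sum_congr rfl; intro x _
    apply Finset.sum_congr rfl; intro y _
    apply Finset.sum_congr rfl; intro z _
    simp only [hF, hg]; ring
  have hdiag : ∑ x, ∑ y, ∑ z, h x * h y * h z * (M G x y * (1 - D z x - M G z x)) * D z y
      ≤ ∑ x, ∑ y, h x * h y * M G x y := by
    apply Finset.sum_le_sum; intro x _
    apply Finset.sum_le_sum; intro y _
    have : ∑ z, h x * h y * h z * (M G x y * (1 - D z x - M G z x)) * D z y =
        h x * h y * h y * (M G x y * (1 - D y x - M G y x)) := by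
      unfold D; simp
    rw [this, mul_assoc (h x), h2 y]
    apply mul_le_mul_of_nonneg_left _ (mul_nonneg (h0 x) (h0 y))
    have a1 := M_nonneg G x y
    have a2 := D_nonneg y x
    have a3 := M_nonneg G y x
    nlinarith [mul_nonneg a1 a2, mul_nonneg a1 a3]
  have hpair : 2 * ∑ x, ∑ y, h x * h y * M G x y ≤ d ^ 2 - d := by
    have e1 : ∑ x, ∑ y, h x * h y * M G x y = ∑ x, ∑ y, h x * h y * M G y x := by
      rw [Finset.sum_comm]
      apply Finset.sum_congr rfl; intro x _
      apply Finset.sum_congr rfl; intro y _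
      ring
    have e2 : 2 * ∑ x, ∑ y, h x * h y * M G x y =
        ∑ x, ∑ y, h x * h y * (M G x y + M G y x) := by
      have : ∑ x, ∑ y, h x * h y * (M G x y + M G y x) =
          ∑ x, ∑ y, h x * h y * M G x y + ∑ x, ∑ y, h x * h y * M G y x := by
        simp only [← Finset.sum_add_distrib]
        apply Finset.sum_congr rfl; intro x _
        apply Finset.sum_congr rfl; intro y _
        ring
      rw [this, ← e1]; ring
    have e3 : ∑ x, ∑ y, h x * h y * (1 - D x y) = d ^ 2 - d := by
      have : ∀ x, ∑ y, h x * h y * (1 - D x y) = h x * d - h x := by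
        intro x
        have : ∑ y, h x * h y * (1 - D x y) = h x * (∑ y, h y) - h x * ∑ y, h y * D x y := by
          rw [Finset.mul_sum, Finset.mul_sum, ← Finset.sum_sub_distrib]
          apply Finset.sum_congr rfl; intro y _; ring
        rw [this, hs, sumD', h2]
      simp_rw [this, Finset.sum_sub_distrib, ← Finset.sum_mul, hs]; ring
    rw [e2, ← e3]
    apply Finset.sum_le_sum; intro x _
    apply Finset.sum_le_sum; intro y _
    apply mul_le_mul_of_nonneg_left _ (mul_nonneg (h0 x) (h0 y))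
    have := DMM_le G hl ha x y
    linarith
  rw [hsplit]
  nlinarith

lemma ci_bound [Fintype V] (G : Digraph V) (hl : ∀ v, ¬ G.Adj v v)
    (ha : ∀ u v, G.Adj u v → ¬ G.Adj v u) (d : ℝ) (hin : ∀ v, ∑ a, M G a v = d) (v w : V) :
    ci G v w + ∑ z, M G w z * M G z v + M G w v ≤ d := by
  have e1 : M G w v = ∑ a, M G a v * D a w := by
    rw [sumD (fun a => M G a v) w]
  rw [e1, ← hin v]
  unfold ci
  rw [← Finset.sum_add_distrib, ← Finset.sum_add_distrib]
  apply Finset.sum_le_sum; intro a _
  have h1 := DMM_le G hl ha a w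
  have h2 := M_nonneg G a v
  nlinarith

/-- second bound -/
lemma boundB [Fintype V] (G : Digraph V) (hl : ∀ v, ¬ G.Adj v v)
    (ha : ∀ u v, G.Adj u v → ¬ G.Adj v u) (d : ℕ) (hd : 0 < d)
    (ho : ∀ v, {w | G.Adj v w}.ncard = d) (hi : ∀ v, {w | G.Adj w v}.ncard = d) :
    ∑ v, ∑ w, M G v w ≤ ∑ v, ∑ w, N G v w +
      ((Fintype.card V : ℝ) * (d * (d - 1) * (2 * d - 1) / 6) +
        d * ((Fintype.card V : ℝ) * d ^ 2 - (Fintype.card V : ℝ) * d - 2 * TT G)) / (d : ℝ) ^ 2 := by
  have hU := um_ds G d hd ho hi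
  have h := main G hl ha _ _ hU hU
  have dpos : (0 : ℝ) < d := by exact_mod_cast hd
  have hout : ∀ v, ∑ w, M G v w = (d : ℝ) := by
    intro v; rw [← ho v, ncard_eq_sum]; rfl
  have hin : ∀ v, ∑ w, M G w v = (d : ℝ) := by
    intro v; rw [← hi v, ncard_eq_sum]; rfl
  have e1 : ∀ v w, inW G (um G d) v w = ci G v w / d := by
    intro v w
    unfold inW um ci
    rw [Finset.sum_div]
    apply Finset.sum_congr rfl; intro y _; ring
  have e2 : ∀ v w, outW G (um G d) v w = co G v w / d := by
    intro v w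
    unfold outW um co
    rw [Finset.sum_div]
    apply Finset.sum_congr rfl; intro y _; ring
  have hco : ∀ v w, co G v w ≤ d := by
    intro v w
    rw [← hout v]
    unfold co
    apply Finset.sum_le_sum; intro b _
    have h1 := DMM_le G hl ha w b
    have h2 := M_nonneg G v b
    have h3 := M_nonneg G b w
    have h4 := D_nonneg w b
    nlinarith
  -- X
  have hX : conflict G (um G d) (um G d) * (d : ℝ) ^ 2 ≤
      ∑ v, ∑ w, M G w v * co G v w * ci G v w +
        d * ∑ v, ∑ w, (1 - D v w - M G v w - M G w v) * ci G v w := by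
    unfold conflict
    rw [Finset.sum_mul, Finset.mul_sum, ← Finset.sum_add_distrib]
    apply Finset.sum_le_sum; intro v _
    rw [Finset.sum_mul, Finset.mul_sum, ← Finset.sum_add_distrib]
    apply Finset.sum_le_sum; intro w _
    have n1 := ci_nonneg G v w
    have n2 := co_nonneg G v w
    have n3 := DMM' G hl ha v w
    have n4 := M_nonneg G w v
    split_ifs with hF
    · rw [e1, e2]
      have hq : ci G v w / d * (co G v w / d) * (d : ℝ) ^ 2 = ci G v w * co G v w := by
        field_simp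
      rw [hq]
      obtain ⟨f1, f2, -⟩ := hF
      have g1 : (D v w : ℝ) = 0 := by
        unfold D; rw [if_neg (fun e => f1 e.symm)]
      have g2 : M G v w = 0 := by
        unfold M; rw [if_neg f2]
      rw [g1, g2] at n3 ⊢
      have g3 : (1 - M G w v) * (ci G v w * co G v w) ≤ (1 - M G w v) * (ci G v w * d) :=
        mul_le_mul_of_nonneg_left (mul_le_mul_of_nonneg_left (hco v w) n1) (by linarith)
      nlinarith
    · have : 0 ≤ M G w v * co G v w * ci G v w := mul_nonneg (mul_nonneg n4 n2) n1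
      have : 0 ≤ (d : ℝ) * ((1 - D v w - M G v w - M G w v) * ci G v w) :=
        mul_nonneg dpos.le (mul_nonneg n3 n1)
      linarith
  have hX1 : ∑ v, ∑ w, M G w v * co G v w * ci G v w ≤
      (Fintype.card V : ℝ) * (d * (d - 1) * (2 * d - 1) / 6) := by
    rw [Finset.sum_comm]
    have key : ∀ w, ∑ v, M G w v * co G v w * ci G v w ≤
        (d * (d - 1) * (2 * d - 1) / 6 : ℝ) := by
      intro w
      have ht := tripleSum G hl ha (fun x => M G w x) (fun x => M_nonneg G w x)
        (fun x => M_sq G w x) d (hout w)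
      refine le_trans ?_ ht
      apply Finset.sum_le_sum; intro v _
      have c1 := ci_bound G hl ha d hin v w
      have c2 : ∑ z, M G w z * (1 - D z v - M G z v) =
          d - M G w v - ∑ z, M G w z * M G z v := by
        have : ∑ z, M G w z * (1 - D z v - M G z v) =
            ∑ z, M G w z - ∑ z, M G w z * D z v - ∑ z, M G w z * M G z v := by
          rw [← Finset.sum_sub_distrib, ← Finset.sum_sub_distrib]
          apply Finset.sum_congr rfl; intro z _; ring
        rw [this, hout w, sumD (fun z => M G w z) v]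
      have c3 : ∑ y, ∑ z, M G w v * M G w y * M G w z * (M G v y * (1 - D z v - M G z v)) =
          M G w v * co G v w * ∑ z, M G w z * (1 - D z v - M G z v) := by
        have c4 : ∀ y, ∑ z, M G w v * M G w y * M G w z * (M G v y * (1 - D z v - M G z v)) =
            M G w v * (M G v y * M G w y) * ∑ z, M G w z * (1 - D z v - M G z v) := by
          intro y
          rw [Finset.mul_sum]
          apply Finset.sum_congr rfl; intro z _
          ring
        simp_rw [c4]
        rw [← Finset.sum_mul, ← Finset.mul_sum]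
        rfl
      rw [c3, c2]
      apply mul_le_mul_of_nonneg_left _ (mul_nonneg (M_nonneg G _ _) (co_nonneg G v w))
      linarith
    calc ∑ w, ∑ v, M G w v * co G v w * ci G v w ≤
        ∑ w : V, (d * (d - 1) * (2 * d - 1) / 6 : ℝ) := Finset.sum_le_sum fun w _ => key w
      _ = _ := by simp
  have hX2 : ∑ v, ∑ w, (1 - D v w - M G v w - M G w v) * ci G v w =
      (Fintype.card V : ℝ) * d ^ 2 - (Fintype.card V : ℝ) * d - 2 * TT G := by
    have p1 : ∑ v, ∑ w, ci G v w = (Fintype.card V : ℝ) * d ^ 2 := by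
      unfold ci
      calc ∑ v, ∑ w, ∑ a, M G a v * M G a w = ∑ v, ∑ a, ∑ w, M G a v * M G a w := by
            apply Finset.sum_congr rfl; intro v _; rw [Finset.sum_comm]
        _ = ∑ a, ∑ v, ∑ w, M G a v * M G a w := by rw [Finset.sum_comm]
        _ = ∑ a : V, (d : ℝ) ^ 2 := by
            apply Finset.sum_congr rfl; intro a _
            rw [← Finset.sum_mul_sum, hout a]; ring
        _ = _ := by simp
    have p2 : ∑ v, ∑ w, D v w * ci G v w = (Fintype.card V : ℝ) * d := by
      have : ∀ v, ∑ w, D v w * ci G v w = d := by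
        intro v
        have : ∑ w, D v w * ci G v w = ci G v v := by unfold D; simp
        rw [this]
        unfold ci
        simp_rw [M_sq]
        exact hin v
      simp_rw [this]; simp
    have p3 := TT_symm G
    have p4 : ∑ v, ∑ w, M G w v * ci G v w = TT G := rfl
    have : ∑ v, ∑ w, (1 - D v w - M G v w - M G w v) * ci G v w =
        ∑ v, ∑ w, ci G v w - ∑ v, ∑ w, D v w * ci G v w - ∑ v, ∑ w, M G v w * ci G v w
          - ∑ v, ∑ w, M G w v * ci G v w := by
      simp only [← Finset.sum_sub_distrib]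
      apply Finset.sum_congr rfl; intro v _
      apply Finset.sum_congr rfl; intro w _
      ring
    rw [this, p1, p2, p3, p4]; ring
  rw [hX2] at hX
  have hc : conflict G (um G d) (um G d) ≤
      ((Fintype.card V : ℝ) * (d * (d - 1) * (2 * d - 1) / 6) +
        d * ((Fintype.card V : ℝ) * d ^ 2 - (Fintype.card V : ℝ) * d - 2 * TT G)) / (d : ℝ) ^ 2 := by
    rw [le_div_iff₀ (by positivity)]
    linarith
  linarith

/-- **Result.** In every `d`-regular oriented graph with `d ≥ 1` (no loops, no digons, all in- and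
out-degrees equal to `d`): `9 ∑ |N₂⁺(v)| ≥ 5 |E| + 4 |V|`; in particular the inequality of Q1
holds with the constant `5/9`. -/
theorem result (V : Type) [Fintype V] (G : Digraph V) (hl : ∀ v, ¬ G.Adj v v)
    (ha : ∀ u v, G.Adj u v → ¬ G.Adj v u) (d : ℕ) (hd : 0 < d)
    (ho : ∀ v, {w | G.Adj v w}.ncard = d) (hi : ∀ v, {w | G.Adj w v}.ncard = d) :
    5 * ∑ v, {w | G.Adj v w}.ncard + 4 * Fintype.card V ≤
      9 * ∑ v, {w | w ≠ v ∧ ¬ G.Adj v w ∧ ∃ u, G.Adj v u ∧ G.Adj u w}.ncard := by
  have hA := boundA G hl ha d hd ho hi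
  have hB := boundB G hl ha d hd ho hi
  have dpos : (0 : ℝ) < d := by exact_mod_cast hd
  have d1 : (1 : ℝ) ≤ d := by exact_mod_cast hd
  have hout : ∀ v, ∑ w, M G v w = (d : ℝ) := by
    intro v; rw [← ho v, ncard_eq_sum]; rfl
  have hE : ∑ v, ∑ w, M G v w = (Fintype.card V : ℝ) * d := by
    simp_rw [hout]; simp
  have hNc : ∑ v, ∑ w, N G v w =
      ((∑ v, {w | w ≠ v ∧ ¬ G.Adj v w ∧ ∃ u, G.Adj v u ∧ G.Adj u w}.ncard : ℕ) : ℝ) := by
    push_cast
    apply Finset.sum_congr rfl; intro v _
    rw [ncard_eq_sum]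
    apply Finset.sum_congr rfl
    intro w _
    unfold N
    congr
  have hEc : (∑ v, {w | G.Adj v w}.ncard) = Fintype.card V * d := by
    simp_rw [ho]; simp
  rw [hE, hNc] at hA hB
  set n : ℝ := (Fintype.card V : ℝ) with hn
  have n0 : 0 ≤ n := by positivity
  set X : ℝ := ((∑ v, {w | w ≠ v ∧ ¬ G.Adj v w ∧ ∃ u, G.Adj v u ∧ G.Adj u w}.ncard : ℕ) : ℝ)
    with hX
  have hA' : n * d * d ≤ X * d + TT G := by
    have := mul_le_mul_of_nonneg_right hA dpos.le
    have e : (X + TT G / d) * d = X * d + TT G := by field_simp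
    rw [e] at this; exact this
  have hB' : n * d * d ^ 2 ≤ X * d ^ 2 + (n * (d * (d - 1) * (2 * d - 1) / 6) +
        d * (n * d ^ 2 - n * d - 2 * TT G)) := by
    have := mul_le_mul_of_nonneg_right hB (by positivity : (0 : ℝ) ≤ (d : ℝ) ^ 2)
    have e : (X + (n * (d * (d - 1) * (2 * d - 1) / 6) +
        d * (n * d ^ 2 - n * d - 2 * TT G)) / (d : ℝ) ^ 2) * (d : ℝ) ^ 2 = X * d ^ 2 +
        (n * (d * (d - 1) * (2 * d - 1) / 6) + d * (n * d ^ 2 - n * d - 2 * TT G)) := by
      field_simp
    rw [e] at this; exact this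
  have hB2 : n * d ^ 2 ≤ X * d + (n * ((d - 1) * (2 * d - 1) / 6) +
        (n * d ^ 2 - n * d - 2 * TT G)) := by
    have e : (d : ℝ) * (n * d ^ 2) ≤ d * (X * d + (n * ((d - 1) * (2 * d - 1) / 6) +
        (n * d ^ 2 - n * d - 2 * TT G))) := by nlinarith
    exact le_of_mul_le_mul_left e dpos
  have hfin : (d : ℝ) * (5 * (n * d) + 4 * n) ≤ d * (9 * X) := by
    nlinarith [mul_nonneg n0 (by linarith : (0 : ℝ) ≤ (d : ℝ) - 1)]
  have hfin2 : 5 * (n * d) + 4 * n ≤ 9 * X := le_of_mul_le_mul_left hfin dpos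
  have : ((5 * ∑ v, {w | G.Adj v w}.ncard + 4 * Fintype.card V : ℕ) : ℝ) ≤
      ((9 * ∑ v, {w | w ≠ v ∧ ¬ G.Adj v w ∧ ∃ u, G.Adj v u ∧ G.Adj u w}.ncard : ℕ) : ℝ) := by
    rw [hEc]
    push_cast at hX ⊢
    rw [← hX]
    linarith
  exact_mod_cast this

end Pool.Agent.H692.FN
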